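import Pool.Agent.Lib.MP_af3031_nt.Bdd

/-!
# Sumsets of sets of squares (MP_af3031_nt, Q1): the energy with an arbitrary set

If `A` is a set of squares up to `N` and `B` is any set of integers of absolute value at most `N`,
then the additive energy is at most `10^6 log N |A| |B|^(3/2)`, and `|A + B|` is at least
`|A| |B|^(1/2) / (10^6 log N)`.
-/

set_option autoImplicit false

namespace Pool.Agent.Results.MP_af3031_nt.EnergyBound

open scoped Pointwise

theorem result :
    ∀ N : ℕ, 2 ≤ N → ∀ A B : Finset ℤ, (∀ a ∈ A, IsSquare a ∧ a ≤ N) → (∀ b ∈ B, |b| ≤ N) →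
      (Finset.addEnergy A B : ℝ) ≤
        1000000 * Real.log N * (A.card * (B.card : ℝ) ^ (3 / 2 : ℝ)) ∧
      (B.Nonempty → (A.card : ℝ) * √(B.card) ≤ 1000000 * Real.log N * ((A + B).card : ℝ)) := by
  intro N hN A B hA hB
  exact ⟨Pool.Agent.MP_af3031_nt.energy_bounded N hN A B hA hB,
    Pool.Agent.MP_af3031_nt.expansion N hN A B hA hB⟩

end Pool.Agent.Results.MP_af3031_nt.EnergyBound
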