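import Pool.Agent.Lib.MP_af3031_nt.Bdd

/-!
# Sumsets of sets of squares (MP_af3031_nt, Q1): the energy inequality for a set of primes

The additive energy of a finite set `A` of squares and any finite set `B` of integers, in terms of
any set `P` of odd primes up to `Y`: besides the few elements of `A` divisible by most primes of
`P`, only the mean square of the number of primes of `P` which divide a difference of two elements
of `B` enters.
-/

set_option autoImplicit false

namespace Pool.Agent.Results.MP_af3031_nt.EnergyInequality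

open scoped Pointwise

theorem result :
    ∀ A B : Finset ℤ, (∀ a ∈ A, IsSquare a) → ∀ (P : Finset ℕ) (Y : ℝ), P.Nonempty →
      (∀ p ∈ P, p.Prime ∧ p ≠ 2 ∧ (p : ℝ) ≤ Y) →
      (Finset.addEnergy A B : ℝ) ≤
        ((A.filter fun a => 3 * P.card < 4 * (P.filter fun p : ℕ => (p : ℤ) ∣ a).card).card : ℝ) *
            (B.card : ℝ) ^ 2 +
          16 * Y * A.card * (B.card +
            (∑ b ∈ B, ∑ c ∈ B.erase b, ((P.filter fun p : ℕ => (p : ℤ) ∣ b - c).card : ℝ) ^ 2) /
              (P.card : ℝ) ^ 2) := by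
  intro A B hsq P Y hPn hP
  have hPc : 0 < P.card := Finset.card_pos.2 hPn
  obtain ⟨q, hq⟩ := hPn
  have hY0 : 0 ≤ Y := (Nat.cast_nonneg q).trans (hP q hq).2.2
  have h := Pool.Agent.MP_af3031_nt.energy_AB A B hsq P
    (fun p hp => ⟨(hP p hp).1, (hP p hp).2.1⟩) Y hY0 (fun p hp => (hP p hp).2.2) hPc
  have hK0 : (P.card : ℝ) ^ 2 ≠ 0 := by
    have : (0 : ℝ) < P.card := by exact_mod_cast hPc
    positivity
  rw [Pool.Agent.MP_af3031_nt.SW_eq, add_div, mul_div_cancel_left₀ _ hK0] at h
  simp only [Pool.Agent.MP_af3031_nt.wt_eq_card] at h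
  have h1 : (A.filter fun a => 3 * P.card < 4 * (P.filter fun p : ℕ => (p : ℤ) ∣ a).card) =
      A.filter fun a => 3 / 4 * (P.card : ℝ) < ((P.filter fun p : ℕ => (p : ℤ) ∣ a).card : ℝ) := by
    refine Finset.filter_congr fun a _ => ?_
    have h2 : (3 * P.card < 4 * (P.filter fun p : ℕ => (p : ℤ) ∣ a).card) ↔
        (3 * (P.card : ℝ) < 4 * ((P.filter fun p : ℕ => (p : ℤ) ∣ a).card : ℝ)) := by
      exact_mod_cast Iff.rfl
    rw [h2]
    constructor <;> intro h3 <;> linarith
  rw [h1]
  convert h using 4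

end Pool.Agent.Results.MP_af3031_nt.EnergyInequality
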