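import Pool.Agent.Lib.MP_af3031_nt.Bdd

/-!
# Sumsets of sets of squares (MP_af3031_nt, Q1): a criterion for sets of any height

A power gain with an explicit exponent if on average few primes of some set `P` of odd primes
divide the differences of the elements of `A`.
-/

set_option autoImplicit false

namespace Pool.Agent.Results.MP_af3031_nt.PrimeCriterion

open scoped Pointwise

theorem result :
    ∀ δ : ℝ, 0 < δ → ∀ A : Finset ℤ, (∀ a ∈ A, IsSquare a) → 2 ≤ A.card →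
      ∀ (P : Finset ℕ) (Y : ℝ), P.Nonempty → (∀ p ∈ P, p.Prime ∧ p ≠ 2 ∧ (p : ℝ) ≤ Y) →
      (A.card : ℝ) ^ δ ≤ Y → Y ≤ (A.card : ℝ) ^ (1 - δ) →
      ∑ a ∈ A, ∑ b ∈ A.erase a, ((P.filter fun p : ℕ => (p : ℤ) ∣ a - b).card : ℝ) ^ 2 ≤
        Y ^ (-1 - δ) * (P.card : ℝ) ^ 2 * (A.card : ℝ) ^ 2 →
      (A.card : ℝ) ^ (1 + δ ^ 2) ≤ 35 * ((A + A).card : ℝ) := by
  intro δ hδ A hsq hA P Y hPn hP hY1 hY2 hW
  refine Pool.Agent.MP_af3031_nt.criterionP δ hδ A hsq hA Y hY1 hY2 P hP hPn ?_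
  simp only [Pool.Agent.MP_af3031_nt.wt_eq_card]
  convert hW using 5

end Pool.Agent.Results.MP_af3031_nt.PrimeCriterion
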